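import Pool.Agent.Lib.MP_340d6a_an.Main

/-!
# No Hölder estimates for `∂̄` on a real-analytic pseudoconvex domain

For every `n = m + 3 ≥ 3` the domain
`|z₁⁴ - z₂⁴|² + (|z₁|² + |z₂|²)¹⁶ + |z₃|² + ... + |z_n|² < 1` in `ℂⁿ` is bounded and pseudoconvex with
real-analytic boundary, but there is no estimate of the supremum norm of the solutions of `∂̄u = f` by
the supremum norm of `f`; a fortiori there are no Hölder estimates.
-/

set_option autoImplicit false

namespace Pool.Agent.Results.MP_340d6a_an.NoSupNormEstimate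

open Pool.Agent.Lib.MP_340d6a_an
open scoped ContDiff ENNReal

theorem result (m : ℕ) :
    IsOpen (Omega m) ∧ IsConnected (Omega m) ∧ Bornology.IsBounded (Omega m) ∧
    RealAnalyticBoundary (Omega m) ∧ Pseudoconvex (Omega m) ∧
    (∀ C : ℝ, ∃ f : Cn (m + 3) → Cn (m + 3), ContDiff ℝ ∞ f ∧
      DbarClosed (Omega m) f ∧ supNorm (Omega m) f < ⊤ ∧
      ∀ u : Cn (m + 3) → ℂ, ContinuousOn u (Omega m) → DbarEq (Omega m) u f →
        ENNReal.ofReal C * supNorm (Omega m) f < supNorm (Omega m) u) ∧
    ¬ HolderEstimates (Omega m) :=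
  ⟨isOpen_Omega, isConnected_Omega, isBounded_Omega, realAnalyticBoundary_Omega',
    pseudoconvex_Omega', no_supNorm_estimate, not_holderEstimates⟩

end Pool.Agent.Results.MP_340d6a_an.NoSupNormEstimate
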